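import Mathlib
import Pool.Agent.W890.SF.Stm

/-!
# Project SAM: the typical partition (`S_TYB → S_TYP`)
-/

set_option autoImplicit false

namespace Pool.Agent.W878.SAM

open Finset Pool.Agent.W890.SF

/-- the `(k-1)`-subsets of `B` which do not form an edge with `a` -/
def badT {V : Type} [DecidableEq V] (k : ℕ) (H : Finset (Finset V)) (B : Finset V) (a : V) :
    Finset (Finset V) :=
  (B.powersetCard (k - 1)).filter (fun T => insert a T ∉ H)

/-- the missing sets of `v` meeting `A'` -/
def missT {V : Type} [Fintype V] [DecidableEq V] (k : ℕ) (H : Finset (Finset V)) (A' : Finset V)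
    (v : V) : Finset (Finset V) :=
  ((((univ : Finset V).erase v).powersetCard (k - 1)).filter
      (fun S => ¬ Disjoint S A' ∧ insert v S ∉ H))

/-- double counting -/
theorem bad_le_miss {V : Type} [Fintype V] [DecidableEq V] (k : ℕ) (hk : 3 ≤ k)
    (H : Finset (Finset V)) (A' B : Finset V) (hd : Disjoint A' B) :
    ∑ a ∈ A', (badT k H B a).card ≤ ∑ b ∈ B, (missT k H A' b).card := by
  classical
  rcases A'.eq_empty_or_nonempty with h0 | ⟨a0, ha0⟩
  · subst h0; simp
  have hpick : ∀ T : Finset V, ∃ b : V, T.Nonempty → b ∈ T := by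
    intro T
    by_cases hT : T.Nonempty
    · obtain ⟨b, hb⟩ := hT
      exact ⟨b, fun _ => hb⟩
    · exact ⟨a0, fun h => absurd h hT⟩
  choose pick hpick using hpick
  rw [← Finset.card_sigma, ← Finset.card_sigma]
  have hdis : ∀ a ∈ A', a ∉ B := fun a ha hb => (Finset.disjoint_left.mp hd) ha hb
  apply Finset.card_le_card_of_injOn
    (fun p : (Σ _ : V, Finset V) => (⟨pick p.2, insert p.1 (p.2.erase (pick p.2))⟩ : (Σ _ : V, Finset V)))
  · rintro ⟨a, T⟩ hp
    simp only [Finset.coe_sigma, Set.mem_sigma_iff, Finset.mem_coe, badT, Finset.mem_filter,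
      Finset.mem_powersetCard, missT] at hp ⊢
    obtain ⟨ha, ⟨hTB, hTc⟩, hTH⟩ := hp
    have hTne : T.Nonempty := by
      rw [← Finset.card_pos, hTc]; omega
    have hb := hpick T hTne
    have haT : a ∉ T := fun h => hdis a ha (hTB h)
    have hab : pick T ≠ a := fun h => haT (h ▸ hb)
    refine ⟨hTB hb, ⟨?_, ?_⟩, ?_, ?_⟩
    · intro x hx
      rw [Finset.mem_erase]
      refine ⟨?_, Finset.mem_univ _⟩
      rintro rfl
      rcases Finset.mem_insert.mp hx with h | h
      · exact hab h
      · exact (Finset.notMem_erase _ _) h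
    · rw [Finset.card_insert_of_notMem (fun h => haT (Finset.mem_of_mem_erase h)),
        Finset.card_erase_of_mem hb, hTc]
      omega
    · rw [Finset.not_disjoint_iff]
      exact ⟨a, Finset.mem_insert_self _ _, ha⟩
    · rw [Finset.insert_comm, Finset.insert_erase hb]
      exact hTH
  · rintro ⟨a, T⟩ hp ⟨a', T'⟩ hp' heq
    simp only [Finset.coe_sigma, Set.mem_sigma_iff, Finset.mem_coe, badT, Finset.mem_filter,
      Finset.mem_powersetCard] at hp hp'
    obtain ⟨ha, ⟨hTB, hTc⟩, hTH⟩ := hp
    obtain ⟨ha', ⟨hTB', hTc'⟩, hTH'⟩ := hp'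
    have hTne : T.Nonempty := by
      rw [← Finset.card_pos, hTc]; omega
    have hTne' : T'.Nonempty := by
      rw [← Finset.card_pos, hTc']; omega
    have hb := hpick T hTne
    have hb' := hpick T' hTne'
    simp only [Sigma.mk.injEq, heq_eq_eq] at heq
    obtain ⟨hbb, hI⟩ := heq
    have haT : a ∉ T := fun h => hdis a ha (hTB h)
    have haT' : a ∉ T' := fun h => hdis a ha (hTB' h)
    have haa : a = a' := by
      have h1 : a ∈ insert a' (T'.erase (pick T')) := by
        rw [← hI]; exact Finset.mem_insert_self _ _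
      rcases Finset.mem_insert.mp h1 with h | h
      · exact h
      · exact absurd (Finset.mem_of_mem_erase h) haT'
    subst haa
    have hE : T.erase (pick T) = T'.erase (pick T') := by
      have h1 : (insert a (T.erase (pick T))).erase a = (insert a (T'.erase (pick T'))).erase a := by
        rw [hI]
      rwa [Finset.erase_insert (fun h => haT (Finset.mem_of_mem_erase h)),
        Finset.erase_insert (fun h => haT' (Finset.mem_of_mem_erase h))] at h1
    have hTT : T = T' := by
      rw [← Finset.insert_erase hb, hE, hbb, Finset.insert_erase hb']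
    subst hTT
    rfl

/-- nearly extremal hypergraphs have a typical partition, from its first half -/
theorem typ (h : S_TYB) : S_TYP := by
  classical
  intro k hk δ hδ
  obtain ⟨d, hd0, hd1, hd2⟩ : ∃ d : ℝ, 0 < d ∧ d ≤ δ / 4 ∧ d ≤ δ ^ 2 / 4 :=
    ⟨min (δ / 4) (δ ^ 2 / 4), lt_min (by positivity) (by positivity), min_le_left _ _,
      min_le_right _ _⟩
  obtain ⟨γ, hγ, n0, hn0⟩ := h k hk d hd0
  refine ⟨γ, hγ, max n0 1, ?_⟩
  intro V _ _ hcV H hU hDeg hExt
  obtain ⟨A', B, hdis, hc, ha1, ha2, hm⟩ := hn0 V (le_trans (le_max_left _ _) hcV) H hU hDeg hExt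
  have hN1 : 1 ≤ Fintype.card V := le_trans (le_max_right _ _) hcV
  set N : ℝ := (Fintype.card V : ℝ) with hNdef
  have hNpos : (0 : ℝ) < N := by
    rw [hNdef]; exact_mod_cast hN1
  have hNk : (0 : ℝ) < N ^ (k - 1) := by positivity
  set A : Finset V := A'.filter (fun a => ((badT k H B a).card : ℝ) ≤ δ * N ^ (k - 1)) with hA
  set D : Finset V := A'.filter (fun a => ¬ ((badT k H B a).card : ℝ) ≤ δ * N ^ (k - 1)) with hD
  have hAD : A.card + D.card = A'.card := by
    rw [hA, hD]
    exact Finset.card_filter_add_card_filter_not _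
  have hAA' : A ⊆ A' := Finset.filter_subset _ _
  have hABd : Disjoint A B := Disjoint.mono_left hAA' hdis
  -- the count
  have hmiss : (∑ b ∈ B, ((missT k H A' b).card : ℝ)) ≤ N * (d * N ^ (k - 1)) := by
    calc (∑ b ∈ B, ((missT k H A' b).card : ℝ)) ≤ ∑ b ∈ B, (d * N ^ (k - 1)) :=
          Finset.sum_le_sum (fun b hb => hm b hb)
      _ = (B.card : ℝ) * (d * N ^ (k - 1)) := by rw [Finset.sum_const, nsmul_eq_mul]
      _ ≤ N * (d * N ^ (k - 1)) := by
          apply mul_le_mul_of_nonneg_right _ (by positivity)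
          rw [hNdef]
          exact_mod_cast Finset.card_le_univ B
  have hcnt : (∑ a ∈ A', ((badT k H B a).card : ℝ)) ≤ ∑ b ∈ B, ((missT k H A' b).card : ℝ) := by
    exact_mod_cast bad_le_miss k hk H A' B hdis
  have hDsum : (D.card : ℝ) * (δ * N ^ (k - 1)) ≤ ∑ a ∈ A', ((badT k H B a).card : ℝ) := by
    calc (D.card : ℝ) * (δ * N ^ (k - 1)) = ∑ a ∈ D, (δ * N ^ (k - 1)) := by
          rw [Finset.sum_const, nsmul_eq_mul]
      _ ≤ ∑ a ∈ D, ((badT k H B a).card : ℝ) := by
          apply Finset.sum_le_sum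
          intro a ha
          have := (Finset.mem_filter.mp ha).2
          linarith [not_le.mp this]
      _ ≤ ∑ a ∈ A', ((badT k H B a).card : ℝ) := by
          apply Finset.sum_le_sum_of_subset_of_nonneg (Finset.filter_subset _ _)
          intros; positivity
  have hDle : (D.card : ℝ) ≤ δ / 4 * N := by
    have h1 : (D.card : ℝ) * (δ * N ^ (k - 1)) ≤ N * (d * N ^ (k - 1)) :=
      le_trans hDsum (le_trans hcnt hmiss)
    have h2 : ((D.card : ℝ) * δ) * N ^ (k - 1) ≤ (N * d) * N ^ (k - 1) := by linarith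
    have h3 : (D.card : ℝ) * δ ≤ N * d := le_of_mul_le_mul_right h2 hNk
    have h4 : (D.card : ℝ) * δ ≤ (δ / 4 * N) * δ := by
      have : N * d ≤ N * (δ ^ 2 / 4) := mul_le_mul_of_nonneg_left hd2 hNpos.le
      linarith
    exact le_of_mul_le_mul_right h4 hδ
  have hADr : (A.card : ℝ) + D.card = A'.card := by exact_mod_cast hAD
  have hdN : d * N ≤ δ / 4 * N := mul_le_mul_of_nonneg_right hd1 hNpos.le
  have hδN : 0 < δ * N := by positivity
  refine ⟨A, B, univ \ (A ∪ B), ?_⟩
  refine ⟨hABd, ?_, ?_, ?_, ?_, ?_, ?_, ?_, ?_⟩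
  · exact Disjoint.mono_left Finset.subset_union_left Finset.disjoint_sdiff
  · exact Disjoint.mono_left Finset.subset_union_right Finset.disjoint_sdiff
  · exact Finset.union_sdiff_of_subset (Finset.subset_univ _)
  · have h1 : (univ \ (A ∪ B)).card + (A ∪ B).card = Fintype.card V := by
      rw [Finset.card_sdiff_add_card_eq_card (Finset.subset_univ _), Finset.card_univ]
    rw [Finset.card_union_of_disjoint hABd] at h1
    have h2 : (((univ \ (A ∪ B)).card : ℕ) : ℝ) + ((A.card : ℝ) + B.card) = N := by
      rw [hNdef]; exact_mod_cast h1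
    linarith
  · have : (A.card : ℝ) ≤ A'.card := by exact_mod_cast Finset.card_le_card hAA'
    have h2 : (1 / (k : ℝ) + d) * N ≤ (1 / (k : ℝ) + δ) * N := by
      apply mul_le_mul_of_nonneg_right _ hNpos.le
      linarith
    linarith
  · have h2 : (1 / (k : ℝ) - δ) * N ≤ (1 / (k : ℝ) - d) * N - δ / 4 * N := by
      have : (1 / (k : ℝ) - d) * N - δ / 4 * N - (1 / (k : ℝ) - δ) * N = (3 / 4 * δ - d) * N := by ring
      have h3 : 0 ≤ (3 / 4 * δ - d) * N := by
        apply mul_nonneg _ hNpos.le
        linarith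
      linarith
    linarith
  · intro v hv
    have hv2 := (Finset.mem_filter.mp hv).2
    have hsub : (tys k 0 A B v).filter (fun S => ¬ insert v S ∈ H) ⊆ badT k H B v := by
      intro S hS
      simp only [tys, badT, Finset.mem_filter, Finset.mem_powersetCard] at hS ⊢
      obtain ⟨⟨⟨hS1, hS2⟩, hS3⟩, hS4⟩ := hS
      refine ⟨⟨?_, hS2⟩, hS4⟩
      intro x hx
      rcases Finset.mem_union.mp (Finset.mem_of_mem_erase (hS1 hx)) with h | h
      · exfalso
        have : x ∈ S ∩ A := Finset.mem_inter.mpr ⟨hx, h⟩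
        rw [Finset.card_eq_zero.mp hS3] at this
        simp at this
      · exact h
    have hsum : (ty k 0 H A B v).card + ((tys k 0 A B v).filter (fun S => ¬ insert v S ∈ H)).card
        = (tys k 0 A B v).card := by
      rw [ty]
      exact Finset.card_filter_add_card_filter_not _
    have hle := Finset.card_le_card hsub
    have hsum' : ((ty k 0 H A B v).card : ℝ) +
        ((tys k 0 A B v).filter (fun S => ¬ insert v S ∈ H)).card = (tys k 0 A B v).card := by
      exact_mod_cast hsum
    have hle' : (((tys k 0 A B v).filter (fun S => ¬ insert v S ∈ H)).card : ℝ) ≤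
        (badT k H B v).card := by exact_mod_cast hle
    linarith
  · intro v hv j hj
    have hm' : ((missT k H A' v).card : ℝ) ≤ d * N ^ (k - 1) := hm v hv
    have hsub : (tys k j A B v).filter (fun S => ¬ insert v S ∈ H) ⊆ missT k H A' v := by
      intro S hS
      simp only [tys, missT, Finset.mem_filter, Finset.mem_powersetCard] at hS ⊢
      obtain ⟨⟨⟨hS1, hS2⟩, hS3⟩, hS4⟩ := hS
      refine ⟨⟨?_, hS2⟩, ?_, hS4⟩
      · intro x hx
        exact Finset.mem_erase.mpr ⟨(Finset.mem_erase.mp (hS1 hx)).1, Finset.mem_univ _⟩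
      · have hne : (S ∩ A).Nonempty := by
          rw [← Finset.card_pos, hS3]
          rcases hj with h | h <;> omega
        obtain ⟨x, hx⟩ := hne
        rw [Finset.mem_inter] at hx
        rw [Finset.not_disjoint_iff]
        exact ⟨x, hx.1, hAA' hx.2⟩
    have hsum : (ty k j H A B v).card + ((tys k j A B v).filter (fun S => ¬ insert v S ∈ H)).card
        = (tys k j A B v).card := by
      rw [ty]
      exact Finset.card_filter_add_card_filter_not _
    have hle := Finset.card_le_card hsub
    have hsum' : ((ty k j H A B v).card : ℝ) +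
        ((tys k j A B v).filter (fun S => ¬ insert v S ∈ H)).card = (tys k j A B v).card := by
      exact_mod_cast hsum
    have hle' : (((tys k j A B v).filter (fun S => ¬ insert v S ∈ H)).card : ℝ) ≤
        (missT k H A' v).card := by exact_mod_cast hle
    have h5 : d * N ^ (k - 1) ≤ δ * N ^ (k - 1) :=
      mul_le_mul_of_nonneg_right (by linarith) hNk.le
    linarith

end Pool.Agent.W878.SAM
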